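import Mathlib
import Pool.Agent.N228.AZ.Stm2

/-! # Project AZ: the area of the Multibrot sets -/

set_option autoImplicit false
open Metric MeasureTheory Set Filter Topology

namespace Pool.Agent.N495.AZ.ToArea

open Pool.Agent.W747.MB
open Pool.Agent.TH363.CD
open Pool.Agent.N228.AZ

/-- The parameters with an attracting fixed point. -/
def W (n : ℕ) : Set ℂ := {c : ℂ | ∃ z, N62a1eb23.IsAttractingCycle (f n c) 1 z}

theorem W_disj {n : ℕ} (hn : 2 ≤ n) : Disjoint (W n) (Ex n 2) := by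
  rw [Set.disjoint_left]
  rintro c ⟨z, hz⟩ ⟨z', hz', hm⟩
  have h1 := period_unique hn hz hz'
  rw [hm] at h1
  have h2 : Function.minimalPeriod (f n c) z ≤ 1 :=
    Function.IsPeriodicPt.minimalPeriod_le Nat.one_pos hz.2.1
  omega

theorem W_sub (n : ℕ) : W n ⊆ hyp n := by
  rintro c ⟨z, hz⟩
  exact ⟨1, z, hz⟩

theorem Ex_sub (n : ℕ) : Ex n 2 ⊆ hyp n := by
  rintro c ⟨z, hz, -⟩
  exact ⟨2, z, hz⟩

theorem hyp_sub {n : ℕ} (hn : 2 ≤ n) : hyp n ⊆ N62a1eb23.multibrotSet n := by
  rintro c ⟨m, z, hz⟩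
  exact mem_multibrot hn (m := m) (z := z) hz

theorem M_sub (n : ℕ) : N62a1eb23.multibrotSet n ⊆ W n ∪ NN n 1 := by
  intro c hc
  by_cases h : c ∈ W n
  · exact Or.inl h
  · refine Or.inr ⟨hc, ?_⟩
    intro m h1 h2 h3
    obtain rfl : m = 1 := le_antisymm h2 h1
    exact h h3

theorem tW (hMain : P_MAIN) :
    Tendsto (fun n : ℕ => n * (Real.pi - (volume (W n)).toReal) / Real.log (n:ℝ)) atTop
      (𝓝 (2 * Real.pi)) := by
  rw [Metric.tendsto_nhds]
  intro ε hε
  set ε' : ℝ := min 1 (ε / (2 * Real.pi)) with hε'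
  have hπ := Real.pi_pos
  have hε0 : 0 < ε' := lt_min one_pos (by positivity)
  have hε1 : ε' ≤ 1 := min_le_left _ _
  have hε2 : Real.pi * ε' < ε := by
    have h1 : ε' ≤ ε / (2 * Real.pi) := min_le_right _ _
    have h2 : Real.pi * ε' ≤ Real.pi * (ε / (2 * Real.pi)) := mul_le_mul_of_nonneg_left h1 hπ.le
    have h3 : Real.pi * (ε / (2 * Real.pi)) = ε / 2 := by field_simp
    linarith
  have hL : Tendsto (fun n : ℕ => Real.log (n:ℝ) / n) atTop (𝓝 0) := by
    have h1 : Tendsto (fun x : ℝ => Real.log x / x) atTop (𝓝 0) := by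
      have := Real.isLittleO_log_id_atTop.tendsto_div_nhds_zero
      simpa using this
    exact h1.comp tendsto_natCast_atTop_atTop
  filter_upwards [hMain ε' hε0, hL.eventually (gt_mem_nhds (show (0:ℝ) < 1 / 2 by norm_num)),
    eventually_ge_atTop 2] with n h1 h2 hn
  obtain ⟨h1a, h1b⟩ := h1
  have hfin : volume (W n) ≠ ⊤ := ne_top_of_le_ne_top ENNReal.ofReal_ne_top h1b
  have hnR : (2:ℝ) ≤ n := by exact_mod_cast hn
  have hlog : 0 < Real.log (n:ℝ) := Real.log_pos (by linarith)
  set q : ℝ := Real.log (n:ℝ) / n with hq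
  have hq0 : 0 < q := by positivity
  have a1 : Real.pi * (1 - (2 + ε') * q) ≤ (volume (W n)).toReal := by
    have := (ENNReal.ofReal_le_iff_le_toReal hfin).1 h1a
    calc Real.pi * (1 - (2 + ε') * q) = Real.pi * (1 - (2 + ε') * Real.log n / n) := by
          rw [hq]; ring
      _ ≤ _ := this
  have a2 : (volume (W n)).toReal ≤ Real.pi * (1 - (2 - ε') * q) := by
    have e : Real.pi * (1 - (2 - ε') * q) = Real.pi * (1 - (2 - ε') * Real.log n / n) := by
      rw [hq]; ring
    have h3 : 0 ≤ Real.pi * (1 - (2 - ε') * q) := by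
      apply mul_nonneg hπ.le
      nlinarith
    rw [e] at h3 ⊢
    exact ENNReal.toReal_le_of_le_ofReal h3 h1b
  have e1 : (n:ℝ) * (Real.pi - (volume (W n)).toReal) / Real.log (n:ℝ) =
      (Real.pi - (volume (W n)).toReal) / q := by
    rw [hq]; field_simp
  rw [Real.dist_eq, e1]
  refine lt_of_le_of_lt ?_ hε2
  rw [abs_le]
  constructor
  · have : 2 * Real.pi - Real.pi * ε' ≤ (Real.pi - (volume (W n)).toReal) / q := by
      rw [le_div_iff₀ hq0]; nlinarith
    linarith
  · have : (Real.pi - (volume (W n)).toReal) / q ≤ 2 * Real.pi + Real.pi * ε' := by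
      rw [div_le_iff₀ hq0]; nlinarith
    linarith

theorem main : P_TOAREA := by
  intro hMeas hMain hLim
  obtain ⟨hE, hN⟩ := hLim 1 le_rfl
  simp only [Function.iterate_one, Nat.sub_self, pow_zero, div_one] at hE hN
  have hW := tW hMain
  have hπ := Real.pi_pos
  -- finiteness
  have fN : ∀ᶠ n : ℕ in atTop, volume (NN n 1) ≠ ⊤ := by
    filter_upwards [hN.eventually (lt_mem_nhds hπ)] with n hn h
    rw [h] at hn
    simp at hn
  have fW : ∀ᶠ n : ℕ in atTop, volume (W n) ≠ ⊤ := by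
    filter_upwards [hMain 1 one_pos] with n hn
    exact ne_top_of_le_ne_top ENNReal.ofReal_ne_top hn.2
  have key : ∀ᶠ n : ℕ in atTop,
      (volume (W n)).toReal + (volume (Ex n 2)).toReal ≤ (volume (hyp n)).toReal ∧
      (volume (hyp n)).toReal ≤ (volume (N62a1eb23.multibrotSet n)).toReal ∧
      (volume (N62a1eb23.multibrotSet n)).toReal ≤
        (volume (W n)).toReal + (volume (NN n 1)).toReal := by
    filter_upwards [fN, fW, eventually_ge_atTop 2] with n h1 h2 hn
    have c1 : volume (N62a1eb23.multibrotSet n) ≤ volume (W n) + volume (NN n 1) :=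
      (measure_mono (M_sub n)).trans (measure_union_le _ _)
    have fM : volume (N62a1eb23.multibrotSet n) ≠ ⊤ :=
      ne_top_of_le_ne_top (ENNReal.add_ne_top.2 ⟨h2, h1⟩) c1
    have c2 : volume (hyp n) ≤ volume (N62a1eb23.multibrotSet n) := measure_mono (hyp_sub hn)
    have fH : volume (hyp n) ≠ ⊤ := ne_top_of_le_ne_top fM c2
    have c3 : volume (W n) + volume (Ex n 2) ≤ volume (hyp n) := by
      rw [← measure_union (W_disj hn) ((hMeas n hn).2 2).1]
      exact measure_mono (union_subset (W_sub n) (Ex_sub n))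
    have fE : volume (Ex n 2) ≠ ⊤ := ne_top_of_le_ne_top fH (measure_mono (Ex_sub n))
    refine ⟨?_, ENNReal.toReal_mono fM c2, ?_⟩
    · rw [← ENNReal.toReal_add h2 fE]
      exact ENNReal.toReal_mono fH c3
    · rw [← ENNReal.toReal_add h2 h1]
      exact ENNReal.toReal_mono (ENNReal.add_ne_top.2 ⟨h2, h1⟩) c1
  have hlo : Tendsto (fun n : ℕ => n * (Real.pi - (volume (W n)).toReal) / Real.log (n:ℝ) -
      n * (volume (NN n 1)).toReal / Real.log (n:ℝ)) atTop (𝓝 Real.pi) := by
    have := hW.sub hN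
    rwa [show 2 * Real.pi - Real.pi = Real.pi by ring] at this
  have hup : Tendsto (fun n : ℕ => n * (Real.pi - (volume (W n)).toReal) / Real.log (n:ℝ) -
      n * (volume (Ex n 2)).toReal / Real.log (n:ℝ)) atTop (𝓝 Real.pi) := by
    have := hW.sub hE
    rwa [show 2 * Real.pi - Real.pi = Real.pi by ring] at this
  have lem : ∀ n : ℕ, 2 ≤ n → ∀ x y : ℝ, x ≤ y → n * x / Real.log (n:ℝ) ≤
      n * y / Real.log (n:ℝ) := by
    intro n hn x y hxy
    have hnR : (2:ℝ) ≤ n := by exact_mod_cast hn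
    have hlog : 0 < Real.log (n:ℝ) := Real.log_pos (by linarith)
    exact div_le_div_of_nonneg_right (mul_le_mul_of_nonneg_left hxy (by linarith)) hlog.le
  have e : ∀ (n : ℕ) (x y : ℝ), n * x / Real.log (n:ℝ) - n * y / Real.log (n:ℝ) =
      n * (x - y) / Real.log (n:ℝ) := by
    intro n x y
    ring
  constructor
  · refine tendsto_of_tendsto_of_tendsto_of_le_of_le' hlo hup ?_ ?_
    · filter_upwards [key, eventually_ge_atTop 2] with n ⟨k1, k2, k3⟩ hn
      rw [e]
      exact lem n hn _ _ (by linarith)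
    · filter_upwards [key, eventually_ge_atTop 2] with n ⟨k1, k2, k3⟩ hn
      rw [e]
      exact lem n hn _ _ (by linarith)
  · refine tendsto_of_tendsto_of_tendsto_of_le_of_le' hlo hup ?_ ?_
    · filter_upwards [key, eventually_ge_atTop 2] with n ⟨k1, k2, k3⟩ hn
      rw [e]
      exact lem n hn _ _ (by linarith)
    · filter_upwards [key, eventually_ge_atTop 2] with n ⟨k1, k2, k3⟩ hn
      rw [e]
      exact lem n hn _ _ (by linarith)

end Pool.Agent.N495.AZ.ToArea
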